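import Mathlib
import Pool.Agent.TH560.QT.Fin

set_option autoImplicit false

/-!
# Additive patterns of quadratic fields whose L-functions have no real zero in `(0,1)`

Call a squarefree integer `n ≠ 1` good if `L(s, χ) > 0` for `0 < s < 1` and all Dirichlet
characters `χ`, primitive or not, of the quadratic field `ℚ(√n)`. We show that three integers with
prescribed differences (for instance three consecutive integers) are good for a positive
proportion of `n`, that all four of `±n`, `±(n + h)` are good for a positive proportion of `n`, that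
every large integer is a sum `a + b` with all of `±a`, `±b` good, and that seven shifts divisible
by a suitable number `Q` are good together.
-/

namespace Pool.Agent.Results.MP_0016c7_nt.ConsecutiveTriples

/-- `χ` is attached to `n`: `χ p` is the Legendre symbol `(n / p)` for all large primes `p`. For a
squarefree `n ≠ 1` these are the primitive quadratic character of the field `ℚ(√n)` and all
characters induced by it. -/
def Attached (n : ℤ) {N : ℕ} (χ : DirichletCharacter ℂ N) : Prop :=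
  ∃ B : ℕ, ∀ p : ℕ, p.Prime → B ≤ p → χ (p : ZMod N) = ((jacobiSym n p : ℤ) : ℂ)

/-- `n` is good: `n` is squarefree, `n ≠ 1`, and `L(s, χ)` is real and positive for `0 < s < 1` for
every Dirichlet character `χ` attached to `n`. -/
def Good (n : ℤ) : Prop :=
  Squarefree n ∧ n ≠ 1 ∧ ∀ (N : ℕ) (_ : NeZero N) (χ : DirichletCharacter ℂ N), Attached n χ →
    ∀ s : ℝ, 0 < s → s < 1 → (DirichletCharacter.LFunction χ (s : ℂ)).im = 0 ∧
      0 < (DirichletCharacter.LFunction χ (s : ℂ)).re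

/-- **Theorem.** (0) For every squarefree `n ≠ 1` there is a primitive quadratic character
attached to `n`, so that the definition of good numbers is not vacuous. (1) For all shifts `h`, `k`
(for instance `1`, `2`) and all signs `s`, `t`, `u`, for at least `2.5` percent of the integers `n`
the three numbers `s n`, `t (n + h)`, `u (n + k)` are good. (2) For all `h`, for at least `9` percent
of the integers `n` the four numbers `n`, `-n`, `n + h`, `-(n + h)` are good. (3) Every large integer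
`X` has at least `0.09 X` representations `X = a + b` such that `a`, `-a`, `b`, `-b` are good.
(4) There is `Q ≥ 1` such that for all seven shifts divisible by `Q` and all signs, for at least `3`
percent of the integers `n` the seven numbers `± (n + h i)` are good. -/
theorem result :
    (∀ n : ℤ, Squarefree n → n ≠ 1 → ∃ (N : ℕ) (_ : NeZero N) (χ : DirichletCharacter ℂ N),
      χ.IsPrimitive ∧ χ ^ 2 = 1 ∧ χ ≠ 1 ∧ Attached n χ) ∧
    (∀ s t u : ℤ, (s = 1 ∨ s = -1) → (t = 1 ∨ t = -1) → (u = 1 ∨ u = -1) → ∀ h k : ℕ,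
      ∃ X0 : ℕ, ∀ X : ℕ, X0 ≤ X → (25 / 1000 : ℝ) * X ≤
        ({n : ℕ | n ≤ X ∧ Good (s * (n : ℤ)) ∧ Good (t * ((n : ℤ) + h)) ∧
          Good (u * ((n : ℤ) + k))}.ncard : ℝ)) ∧
    (∀ h : ℕ, ∃ X0 : ℕ, ∀ X : ℕ, X0 ≤ X → (9 / 100 : ℝ) * X ≤
        ({n : ℕ | n ≤ X ∧ (Good (n : ℤ) ∧ Good (-(n : ℤ))) ∧
          (Good ((n : ℤ) + h) ∧ Good (-((n : ℤ) + h)))}.ncard : ℝ)) ∧
    (∃ X0 : ℕ, ∀ X : ℕ, X0 ≤ X → (9 / 100 : ℝ) * X ≤
        ({a : ℕ | a ≤ X ∧ (Good (a : ℤ) ∧ Good (-(a : ℤ))) ∧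
          (Good ((X : ℤ) - a) ∧ Good (-((X : ℤ) - a)))}.ncard : ℝ)) ∧
    (∃ Q : ℕ, 0 < Q ∧ ∀ s : Fin 7 → ℤ, (∀ i, s i = 1 ∨ s i = -1) → ∀ h : Fin 7 → ℕ,
      (∀ i, Q ∣ h i) → ∃ X0 : ℕ, ∀ X : ℕ, X0 ≤ X → (3 / 100 : ℝ) * X ≤
        ({n : ℕ | n ≤ X ∧ ∀ i, Good (s i * ((n : ℤ) + h i))}.ncard : ℝ)) := by
  have H := Pool.Agent.TH560.QT.dens
  have e1 : ∀ n : ℤ, Pool.Agent.TH560.QT.Good n = Good n := fun _ => rfl
  refine ⟨fun n hn h1 => Pool.Agent.TH560.QT.exists_char n hn h1,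
    fun s t u hs ht hu h k => ?_, fun h => ?_, ?_, ?_⟩
  · have := Filter.eventually_atTop.1 (Pool.Agent.TH560.QT.triples H s t u hs ht hu h k)
    obtain ⟨X0, h0⟩ := this
    refine ⟨X0, fun X hX => (h0 X hX).trans (le_of_eq ?_)⟩
    unfold Pool.Agent.TH560.QT.cnt
    simp only [Pool.Agent.TH560.QT.GG, e1, Nat.cast_add, Set.mem_ofPred_eq]
  · obtain ⟨X0, h0⟩ := Filter.eventually_atTop.1 (Pool.Agent.TH560.QT.pairs H h)
    refine ⟨X0, fun X hX => (h0 X hX).trans (le_of_eq ?_)⟩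
    unfold Pool.Agent.TH560.QT.cnt
    simp only [Pool.Agent.TH560.QT.Two, Pool.Agent.TH560.QT.GG, e1, Nat.cast_add,
      Set.mem_ofPred_eq, one_mul, neg_one_mul]
  · obtain ⟨X0, h0⟩ := Filter.eventually_atTop.1 (Pool.Agent.TH560.QT.sums2 H)
    refine ⟨X0, fun X hX => (h0 X hX).trans (le_of_eq ?_)⟩
    unfold Pool.Agent.TH560.QT.cnt
    congr 2
    ext a
    simp only [Pool.Agent.TH560.QT.Two, Pool.Agent.TH560.QT.GG, e1,
      Set.mem_ofPred_eq, one_mul, neg_one_mul]
    constructor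
    · rintro ⟨h1, h2⟩
      rw [Nat.cast_sub h1] at h2
      exact ⟨h1, h2⟩
    · rintro ⟨h1, h2⟩
      rw [Nat.cast_sub h1]
      exact ⟨h1, h2⟩
  · obtain ⟨Q, hQ, h0⟩ := Pool.Agent.TH560.QT.shifts H
    refine ⟨Q, hQ, fun s hs h hh => ?_⟩
    obtain ⟨X0, h1⟩ := Filter.eventually_atTop.1 (h0 s hs h hh)
    refine ⟨X0, fun X hX => (h1 X hX).trans (le_of_eq ?_)⟩
    unfold Pool.Agent.TH560.QT.cnt
    simp only [Pool.Agent.TH560.QT.GG, e1, Nat.cast_add, Set.mem_ofPred_eq]

end Pool.Agent.Results.MP_0016c7_nt.ConsecutiveTriples
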