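import Pool.Agent.TH255.PS.Rate

/-!
# Real zeros of quadratic Dirichlet `L`-functions and rotated sums over primes

Let `χ` be a nontrivial quadratic Dirichlet character modulo `N` (primitive or not), `σ ≥ 0`, `γ` real
and `T > 0`. The sum over prime powers `n = p^k`

`S_{σ,γ}(T) = ∑_n χ(n) Λ(n) / (n^σ log n) · exp(i γ log n / T) / Γ(1 + log n / T)`

converges absolutely. It is a smooth version, with the cut-off at about `n = e^T`, of the logarithm of
the Euler product of `L(s,χ)` at the point `s = σ`, turned by an angle. Let `m` be the order of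
`L(s,χ)` at `s = σ`, `l` its leading coefficient there (so `l = L(σ,χ)` if `m = 0`) and `z` the
number of real zeros `> σ`, with multiplicities.

* For every `γ > π/2`: `S_{σ,γ}(T) = - m (log T - Λ_γ) + log |l| - π i z + O(1/T)`, without any
  hypothesis on the zeros. So primes give the exact number of real zeros in `(σ, 1)` (as the limit of
  the imaginary part), and the value `L(σ,χ)`, e.g. inside the critical strip.
* If `β` is the largest of the real zeros `≥ σ` (`β = σ` if there is none), then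
  `log (1 + log (1 + |S_{σ,0}(T)|)) / T` tends to `β - σ`.
* The following are equivalent: `L(s,χ) > 0` for all `σ < s < 1` (for `σ = 0` this is the question
  for `χ`); the imaginary part of `S_{σ,γ}(T)` tends to `m Im Λ_γ` for all (for one) `γ > π/2`;
  `S_{σ,0}(T) = - m (log T - Λ_0) + log |l| + O(1/T)`; the rate above is `0`; for every `ε > 0` there
  are arbitrarily large `T` with `|S_{σ,0}(T)| ≤ exp (exp (ε T))`.
-/

set_option autoImplicit false

open Filter Topology Set
open ArithmeticFunction (vonMangoldt)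

namespace Pool.Agent.Results.MP_0016c7_nt.PrimeSumCriterion

variable {N : ℕ}

/-- The term of `S_{σ,γ}(T)` for the integer `n` (it is `0` unless `n` is a prime power). -/
noncomputable def term (χ : DirichletCharacter ℂ N) (σ γ T : ℝ) (n : ℕ) : ℂ :=
  χ n * ((vonMangoldt n / ((n : ℝ) ^ σ * Real.log n) : ℝ) : ℂ) *
    Complex.exp ((γ * Real.log n / T : ℝ) * Complex.I) / (Real.Gamma (1 + Real.log n / T) : ℝ)

/-- `S_{σ,γ}(T)`. -/
noncomputable def S (χ : DirichletCharacter ℂ N) (σ γ T : ℝ) : ℂ := ∑' n : ℕ, term χ σ γ T n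

/-- `Λ_γ = ∫_0^∞ (e^{-t} - e^{iγt} / Γ(1 + t)) dt / t`. -/
noncomputable def Lam (γ : ℝ) : ℂ := ∫ t in Ioi (0 : ℝ),
  (Complex.exp (-(t : ℂ)) - Complex.exp ((γ * t : ℝ) * Complex.I) *
    ((Real.Gamma (1 + t))⁻¹ : ℝ)) / t

/-- The order of the zero of `L(s,χ)` at the real point `s` (`0` if `L(s,χ) ≠ 0`). -/
noncomputable def order [NeZero N] (χ : DirichletCharacter ℂ N) (s : ℝ) : ℕ :=
  analyticOrderNatAt χ.LFunction (s : ℂ)

/-- The number of real zeros `> σ` of `L(s,χ)`, with multiplicities. -/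
noncomputable def zeros [NeZero N] (χ : DirichletCharacter ℂ N) (σ : ℝ) : ℕ :=
  ∑ᶠ s ∈ Ioi σ, order χ s

/-- `log (1 + log (1 + |S_{σ,0}(T)|)) / T`. -/
noncomputable def rate (χ : DirichletCharacter ℂ N) (σ T : ℝ) : ℝ :=
  Real.log (1 + Real.log (1 + ‖S χ σ 0 T‖)) / T

open Pool.Agent.TH255.PS Pool.Agent.W189.ML Pool.Agent.W189.LC
open Pool.Agent.W187.UR (cmean)

theorem term_eq {χ : DirichletCharacter ℂ N} (h2 : χ ^ 2 = 1) (σ γ T : ℝ) (n : ℕ) :
    term χ σ γ T n = (cc χ σ n : ℂ) * Complex.exp ((γ * (ll n / T) : ℝ) * Complex.I) *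
      (om (ll n / T) : ℂ) := by
  unfold term cc om ll
  rw [mul_div_assoc γ, ← chi_real h2 n, div_eq_mul_inv]
  push_cast
  rw [Complex.ofReal_re]
  ring

theorem S_eq {χ : DirichletCharacter ℂ N} (h2 : χ ^ 2 = 1) (σ γ T : ℝ) :
    S χ σ γ T = cmean ll (cc χ σ) γ T := tsum_congr fun n => term_eq h2 σ γ T n

theorem S_zero {χ : DirichletCharacter ℂ N} (h2 : χ ^ 2 = 1) (σ T : ℝ) :
    S χ σ 0 T = (mean ll (cc χ σ) T : ℂ) := by
  rw [S_eq h2]
  unfold cmean mean
  rw [Complex.ofReal_tsum]
  refine tsum_congr fun n => ?_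
  rw [zero_mul, Complex.ofReal_zero, zero_mul, Complex.exp_zero, mul_one]
  push_cast
  rfl

theorem rate_eq {χ : DirichletCharacter ℂ N} (h2 : χ ^ 2 = 1) (σ T : ℝ) :
    rate χ σ T = ll2 (mean ll (cc χ σ) T) / T := by
  unfold rate ll2
  rw [S_zero h2, Complex.norm_real, Real.norm_eq_abs]

theorem Lam_zero : Lam 0 = (kap : ℂ) := by
  unfold Lam kap
  rw [← integral_complex_ofReal]
  refine MeasureTheory.integral_congr_ae (Eventually.of_forall fun t => ?_)
  simp

theorem summable_term {χ : DirichletCharacter ℂ N} (h2 : χ ^ 2 = 1) {σ : ℝ} (hσ : 0 ≤ σ) (γ : ℝ)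
    {T : ℝ} (hT : 0 < T) : Summable fun n => ‖term χ σ γ T n‖ := by
  refine Summable.of_nonneg_of_le (fun n => norm_nonneg _) (fun n => ?_)
    ((summ χ hσ (show (1 : ℝ) < 2 by norm_num)).mul_left (Real.exp (Real.exp (2 * T)) + 1))
  have h1 : 0 ≤ ll n / T := div_nonneg (Real.log_natCast_nonneg n) hT.le
  have h3 := om_le (a := 2 * T) (v := ll n / T) (by positivity) h1
  have h4 : 2 * T * (ll n / T) = 2 * ll n := by field_simp
  rw [h4] at h3
  rw [term_eq h2, norm_mul, norm_mul, Complex.norm_exp_ofReal_mul_I, mul_one, Complex.norm_real,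
    Complex.norm_real, Real.norm_eq_abs, Real.norm_eq_abs, abs_of_nonneg (om_nonneg h1)]
  calc |cc χ σ n| * om (ll n / T) ≤
        |cc χ σ n| * ((Real.exp (Real.exp (2 * T)) + 1) * Real.exp (-(2 * ll n))) :=
        mul_le_mul_of_nonneg_left h3 (abs_nonneg _)
    _ = _ := by ring

/-- **Theorem.** Real zeros of quadratic Dirichlet `L`-functions and rotated sums over primes. -/
theorem result (N : ℕ) [NeZero N] (χ : DirichletCharacter ℂ N) (h1 : χ ≠ 1) (h2 : χ ^ 2 = 1)
    (σ : ℝ) (hσ : 0 ≤ σ) :
    (∀ γ T : ℝ, 0 < T → Summable fun n => ‖term χ σ γ T n‖) ∧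
    {s : ℝ | σ < s ∧ χ.LFunction s = 0}.Finite ∧
    ∃ l β : ℝ, l ≠ 0 ∧ meromorphicTrailingCoeffAt χ.LFunction σ = l ∧ 0 < (-1) ^ zeros χ σ * l ∧
      IsGreatest (insert σ {s : ℝ | χ.LFunction s = 0}) β ∧
      -- the rotated sums
      (∀ γ : ℝ, Real.pi / 2 < γ →
        (fun T : ℝ => S χ σ γ T - (-(order χ σ) * (Real.log T - Lam γ) + Real.log |l| -
          Real.pi * zeros χ σ * Complex.I)) =O[atTop] (fun T : ℝ => 1 / T)) ∧
      -- the sums without rotation
      Tendsto (rate χ σ) atTop (𝓝 (β - σ)) ∧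
      -- the equivalent forms of the question
      List.TFAE [
        ∀ s : ℝ, σ < s → s < 1 → (χ.LFunction s).im = 0 ∧ 0 < (χ.LFunction s).re,
        ∀ γ : ℝ, Real.pi / 2 < γ →
          Tendsto (fun T : ℝ => (S χ σ γ T).im) atTop (𝓝 (order χ σ * (Lam γ).im)),
        ∃ γ : ℝ, Real.pi / 2 < γ ∧
          Tendsto (fun T : ℝ => (S χ σ γ T).im) atTop (𝓝 (order χ σ * (Lam γ).im)),
        (fun T : ℝ => S χ σ 0 T - (-(order χ σ) * (Real.log T - Lam 0) + Real.log |l|)) =O[atTop]
          (fun T : ℝ => 1 / T),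
        Tendsto (rate χ σ) atTop (𝓝 0),
        ∀ ε : ℝ, 0 < ε → ∃ᶠ T : ℝ in atTop, ‖S χ σ 0 T‖ ≤ Real.exp (Real.exp (ε * T))] := by
  obtain ⟨l, hl0, hl, hsg, hrot⟩ := rot h1 h2 hσ
  have hinv : Tendsto (fun T : ℝ => 1 / T) atTop (𝓝 0) := tendsto_const_nhds.div_atTop tendsto_id
  have hzc : zeros χ σ = zc χ σ := rfl
  have hz0 := zc_zero_iff h1 h2 hσ
  -- the largest zero and the rate
  have hβ : ∃ β : ℝ, IsGreatest (insert σ {s : ℝ | χ.LFunction s = 0}) β ∧
      Tendsto (rate χ σ) atTop (𝓝 (β - σ)) ∧ (zc χ σ = 0 ↔ β = σ) := by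
    by_cases hz : ∀ s : ℝ, σ < s → χ.LFunction (s : ℂ) ≠ 0
    · refine ⟨σ, ⟨mem_insert _ _, ?_⟩, ?_, ?_⟩
      · rintro s (rfl | hs)
        · exact le_rfl
        · by_contra h
          exact hz s (not_le.1 h) hs
      · rw [sub_self]
        refine (rate_reg h1 h2 hσ hz).congr fun T => ?_
        rw [rate_eq h2]
      · exact ⟨fun _ => rfl, fun _ => hz0.2 hz⟩
    · obtain ⟨β, h3, h4, h5, h6, -, h8⟩ := rate_sing h1 h2 hσ hz
      refine ⟨β, ⟨mem_insert_of_mem _ h5, ?_⟩, ?_, ?_⟩
      · rintro s (rfl | hs)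
        · exact h3.le
        · by_contra h
          exact h6 s (not_le.1 h) hs
      · refine h8.congr fun T => ?_
        rw [rate_eq h2]
      · refine ⟨fun h => absurd (hz0.1 h) hz, fun h => absurd h3 (by rw [h]; exact lt_irrefl _)⟩
  obtain ⟨β, hgr, hrate, hβσ⟩ := hβ
  -- the law for the imaginary part
  have him : ∀ γ : ℝ, Real.pi / 2 < γ → Tendsto (fun T : ℝ => (S χ σ γ T).im) atTop
      (𝓝 (order χ σ * (Lam γ).im - Real.pi * zc χ σ)) := by
    intro γ hγ
    have h3 := (hrot γ hγ).trans_tendsto hinv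
    have h4 := (Complex.continuous_im.tendsto 0).comp h3
    have h5 := h4.add_const ((order χ σ : ℝ) * (Lam γ).im - Real.pi * zc χ σ)
    rw [Complex.zero_im, zero_add] at h5
    refine h5.congr fun T => ?_
    rw [S_eq h2]
    simp only [Function.comp, Complex.sub_im, Complex.add_im, Complex.mul_im, Complex.neg_im,
      Complex.neg_re, Complex.natCast_re, Complex.natCast_im, Complex.ofReal_im, Complex.ofReal_re,
      Complex.sub_re, Complex.I_re, Complex.I_im, Complex.mul_re]
    change _ - (-((analyticOrderNatAt χ.LFunction (σ : ℂ) : ℕ) : ℝ) * (0 - (Lam γ).im) +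
      -0 * _ + 0 - _) + _ = _
    unfold order
    ring
  refine ⟨fun γ T hT => summable_term h2 hσ γ hT, zeros_finite h1 h2 hσ, l, β, hl0, hl, ?_, hgr,
    fun γ hγ => ?_, hrate, ?_⟩
  · rw [hzc]; exact hsg
  · refine (hrot γ hγ).congr_left fun T => ?_
    rw [S_eq h2]
    rfl
  · -- the equivalences
    tfae_have 1 → 2 := by
      intro h γ hγ
      have h3 : zc χ σ = 0 := by
        rw [hz0]
        intro s hs h4
        by_cases hs1 : s < 1
        · have := (h s hs hs1).2
          rw [h4] at this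
          simp at this
        · exact ne_of_one_le h1 (not_lt.1 hs1) h4
      have h4 := him γ hγ
      rw [h3] at h4
      simpa using h4
    tfae_have 2 → 3 := fun h => ⟨Real.pi, by linarith [Real.pi_pos], h Real.pi
      (by linarith [Real.pi_pos])⟩
    tfae_have 3 → 1 := by
      rintro ⟨γ, hγ, h⟩ s hs hs1
      have h3 := tendsto_nhds_unique h (him γ hγ)
      have h4 : zc χ σ = 0 := by
        have h5 : Real.pi * (zc χ σ : ℝ) = 0 := by linarith
        rcases mul_eq_zero.1 h5 with h6 | h6
        · exact absurd h6 Real.pi_ne_zero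
        · exact_mod_cast h6
      have hs0 : 0 ≤ s := hσ.trans hs.le
      obtain ⟨l', hl0', hl', hsg', -⟩ := rot h1 h2 hs0
      have h5 : zc χ s = 0 := (zc_zero_iff h1 h2 hs0).2 fun t ht => hz0.1 h4 t (hs.trans ht)
      have h6 : χ.LFunction (s : ℂ) ≠ 0 := hz0.1 h4 s hs
      have h7 : meromorphicTrailingCoeffAt χ.LFunction (s : ℂ) = χ.LFunction (s : ℂ) :=
        (analytic h1 (s : ℂ)).meromorphicTrailingCoeffAt_of_ne_zero h6
      rw [h5, pow_zero, one_mul] at hsg'
      rw [h7] at hl'
      rw [hl']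
      simpa using hsg'
    tfae_have 1 → 4 := by
      intro h
      have h3 : ∀ s : ℝ, σ < s → χ.LFunction (s : ℂ) ≠ 0 := by
        intro s hs h4
        by_cases hs1 : s < 1
        · have := (h s hs hs1).2
          rw [h4] at this
          simp at this
        · exact ne_of_one_le h1 (not_lt.1 hs1) h4
      have h4 := reg h1 h2 hσ h3
      have h5 : zc χ σ = 0 := hz0.2 h3
      rw [h5, pow_zero, one_mul] at hsg
      rw [hl, Complex.ofReal_re] at h4
      rw [abs_of_pos hsg, Lam_zero]
      rw [← Asymptotics.isBigO_norm_left] at h4 ⊢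
      refine h4.congr_left fun T => ?_
      rw [S_zero h2, ← Complex.norm_real]
      congr 1
      unfold order
      push_cast
      ring
    tfae_have 4 → 5 := by
      intro h
      have h4 := h.trans_tendsto hinv
      have h5 : Tendsto (fun T : ℝ => Real.log T / T) atTop (𝓝 0) := by
        have := Real.isLittleO_log_id_atTop.tendsto_div_nhds_zero
        simpa using this
      have h5c : Tendsto (fun T : ℝ => ((Real.log T / T : ℝ) : ℂ)) atTop (𝓝 0) := by
        have := (Complex.continuous_ofReal.tendsto 0).comp h5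
        simpa [Function.comp_def] using this
      have hic : Tendsto (fun T : ℝ => ((1 / T : ℝ) : ℂ)) atTop (𝓝 0) := by
        have := (Complex.continuous_ofReal.tendsto 0).comp hinv
        simpa [Function.comp_def] using this
      have h6 : Tendsto (fun T : ℝ => S χ σ 0 T / T) atTop (𝓝 0) := by
        have h7 : Tendsto (fun T : ℝ => (S χ σ 0 T - (-(order χ σ) * (Real.log T - Lam 0) +
            Real.log |l|)) * ((1 / T : ℝ) : ℂ) +
            (-(order χ σ) * ((Real.log T / T : ℝ) : ℂ) + order χ σ * Lam 0 * ((1 / T : ℝ) : ℂ) +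
              Real.log |l| * ((1 / T : ℝ) : ℂ))) atTop
            (𝓝 (0 * 0 + (-(order χ σ) * 0 + order χ σ * Lam 0 * 0 + Real.log |l| * 0))) :=
          (h4.mul hic).add (((h5c.const_mul _).add (hic.const_mul _)).add (hic.const_mul _))
        simp only [mul_zero, add_zero] at h7
        refine h7.congr' ?_
        filter_upwards [eventually_gt_atTop 0] with T hT
        have hTc : (T : ℂ) ≠ 0 := by exact_mod_cast hT.ne'
        push_cast
        field_simp
        ring
      have h8 : Tendsto (fun T : ℝ => ‖S χ σ 0 T / T‖) atTop (𝓝 0) := by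
        simpa using h6.norm
      refine squeeze_zero' ?_ ?_ h8
      · filter_upwards [eventually_gt_atTop 0] with T hT
        rw [rate_eq h2]
        exact div_nonneg (ll2_nonneg _) hT.le
      · filter_upwards [eventually_gt_atTop 0] with T hT
        rw [rate_eq h2, norm_div, Complex.norm_real, Real.norm_eq_abs, abs_of_pos hT, S_zero h2,
          Complex.norm_real, Real.norm_eq_abs]
        exact div_le_div_of_nonneg_right (ll2_le _) hT.le
    tfae_have 5 → 6 := by
      intro h ε hε
      refine Eventually.frequently ?_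
      filter_upwards [h.eventually (eventually_le_nhds hε), eventually_gt_atTop 0] with T h3 hT
      rw [rate_eq h2, div_le_iff₀ hT] at h3
      rw [S_zero h2, Complex.norm_real, Real.norm_eq_abs]
      by_contra h4
      push Not at h4
      have h5 := le_ll2 h4.le
      -- strictness
      have h6 : ε * T < ll2 (mean ll (cc χ σ) T) := by
        unfold ll2
        have h7 : Real.exp (ε * T) < Real.log (1 + |mean ll (cc χ σ) T|) := by
          rw [Real.lt_log_iff_exp_lt (by linarith [abs_nonneg (mean ll (cc χ σ) T)])]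
          linarith
        rw [Real.lt_log_iff_exp_lt (by linarith [Real.exp_pos (ε * T)])]
        linarith
      linarith
    tfae_have 6 → 1 := by
      intro h
      have h3 : β = σ := by
        by_contra hne
        have hlt : σ < β := lt_of_le_of_ne (hgr.2 (mem_insert _ _)) (Ne.symm hne)
        set ε : ℝ := (β - σ) / 3 with hε
        have hε0 : 0 < ε := by rw [hε]; linarith
        have e1 : ∀ᶠ T : ℝ in atTop, 2 * ε ≤ rate χ σ T :=
          hrate.eventually (eventually_ge_nhds (by rw [hε]; linarith))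
        have e2 : ∀ᶠ T : ℝ in atTop, Real.log (1 + 1) + 1 ≤ Real.exp (ε * T) := by
          have h7 : Tendsto (fun T : ℝ => Real.exp (ε * T)) atTop atTop :=
            Real.tendsto_exp_atTop.comp (tendsto_id.const_mul_atTop hε0)
          exact h7.eventually_ge_atTop _
        obtain ⟨T, h4, h5, h6, h7⟩ := ((h ε hε0).and_eventually
          (e1.and (e2.and (eventually_gt_atTop (1 / ε))))).exists
        have hT : 0 < T := (by positivity : (0 : ℝ) < 1 / ε).trans h7
        rw [S_zero h2, Complex.norm_real, Real.norm_eq_abs] at h4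
        have h8 := ll2_le_of zero_le_one (by rw [one_mul]; exact h4) h6
        rw [rate_eq h2, le_div_iff₀ hT] at h5
        rw [div_lt_iff₀ hε0] at h7
        nlinarith
      have h4 : zc χ σ = 0 := hβσ.2 h3
      have h5 : (∃ γ : ℝ, Real.pi / 2 < γ ∧
          Tendsto (fun T : ℝ => (S χ σ γ T).im) atTop (𝓝 (order χ σ * (Lam γ).im))) := by
        refine ⟨Real.pi, by linarith [Real.pi_pos], ?_⟩
        have h6 := him Real.pi (by linarith [Real.pi_pos])
        rw [h4] at h6
        simpa using h6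
      exact tfae_3_to_1 h5
    tfae_finish

end Pool.Agent.Results.MP_0016c7_nt.PrimeSumCriterion
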