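import Mathlib
import Pool.Agent.W161.LF.Asm
import Pool.Agent.TH863.LQ.Comb
import Pool.Agent.TH863.LQ.Tw

set_option autoImplicit false

/-!
# Many twists at once of a quadratic character, without real zeros in `(0,1)`

For a real primitive character `χ` and finitely many real characters `ψ` of odd conductor we study
the positivity of all the functions `L(s,χψ)` on `(0,1)`, for `χ` in a class with prescribed
parity and prescribed values at finitely many primes.
-/

namespace Pool.Agent.Results.MP_0016c7_nt.SimultaneousTwists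

/-- A modulus and a Dirichlet character modulo it. -/
abbrev Char : Type := Σ N : ℕ, DirichletCharacter ℂ N

/-- The pairs `(N, χ)` with `1 ≤ N ≤ X` and `χ` a nontrivial primitive quadratic Dirichlet
character modulo `N` such that `χ(-1) = s` and `χ(p) = c p` for all `p ∈ S`. -/
def Class (S : Finset ℕ) (c : ℕ → ℤ) (s : ℤ) (X : ℕ) : Set Char :=
  {p | p.1 ≠ 0 ∧ p.1 ≤ X ∧ p.2.IsPrimitive ∧ p.2 ^ 2 = 1 ∧ p.2 ≠ 1 ∧ p.2 (-1) = (s : ℂ) ∧
    ∀ q ∈ S, p.2 (q : ZMod p.1) = (c q : ℂ)}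

/-- The product `χψ`, a character modulo the least common multiple of the two moduli. -/
noncomputable def twist (p Q : Char) : Char := ⟨Nat.lcm p.1 Q.1, p.2.mul Q.2⟩

/-- `L(s,χ)` is real and positive for every real `s` with `0 < s < 1`. -/
def Positive (p : Char) : Prop :=
  ∃ _ : NeZero p.1, ∀ s : ℝ, 0 < s → s < 1 →
    (DirichletCharacter.LFunction p.2 (s : ℂ)).im = 0 ∧
    0 < (DirichletCharacter.LFunction p.2 (s : ℂ)).re

/-- `ψ` is a primitive character with `ψ² = 1` (the trivial character modulo `1` is allowed) whose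
conductor is odd and divisible by no prime of `S`. -/
def Twister (S : Finset ℕ) (Q : Char) : Prop :=
  Odd Q.1 ∧ Q.2.IsPrimitive ∧ Q.2 ^ 2 = 1 ∧ ∀ p ∈ S, ¬ p ∣ Q.1

/-- **Theorem.** Let `S` be a finite set of primes, `c p ∈ {0, 1, -1}` for `p ∈ S` and
`s ∈ {1, -1}`. The class of the primitive quadratic characters `χ` with `χ(p) = c p` for `p ∈ S`
and `χ(-1) = s` has at least `κ X` members of conductor at most `X`, with some `κ > 0`, and the
following holds for all large `X` (depending on the given finite families).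

* For `ψ_1, …, ψ_n` as above and all `j`, at most `j` of the `n` functions `L(s,χψ_i)` fail to be
  positive on `(0,1)`, for a proportion of at least `1 - 0.1351 n / (j + 1)` of the `χ` of the
  class of conductor at most `X` (for `j = 0` and `n ≤ 7`: all of them are positive).
* For `m ≤ n` and an array `ψ_x`, `x ∈ {1, …, n}^r`, of `n^r` characters as above there are sets
  `A_1, …, A_r ⊆ {1, …, n}` of size `m` such that all the `m^r` functions `L(s,χψ_x)`,
  `x ∈ A_1 × ⋯ × A_r`, are positive on `(0,1)`, for a proportion of at least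
  `0.8649 ^ (m^r) - r m² / (2n)` of the `χ`. -/
theorem result (S : Finset ℕ) (hS : ∀ p ∈ S, p.Prime) (c : ℕ → ℤ)
    (hc : ∀ p ∈ S, c p = 0 ∨ c p = 1 ∨ c p = -1) (s : ℤ) (hs : s = 1 ∨ s = -1) :
    (∀ X : ℕ, (Class S c s X).Finite) ∧
    (∃ κ : ℝ, 0 < κ ∧ ∃ X0 : ℕ, ∀ X : ℕ, X0 ≤ X →
      κ * (X : ℝ) ≤ ((Class S c s X).ncard : ℝ)) ∧
    (∀ (n : ℕ) (Ψ : Fin n → Char), (∀ i, Twister S (Ψ i)) → ∃ X0 : ℕ, ∀ X : ℕ, X0 ≤ X →
      ∀ j : ℕ, (1 - 1351 / 10000 * n / (j + 1) : ℝ) * ((Class S c s X).ncard : ℝ) ≤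
        ((Class S c s X ∩ {p | {i | ¬ Positive (twist p (Ψ i))}.ncard ≤ j}).ncard : ℝ)) ∧
    (∀ (r m n : ℕ), m ≤ n → 0 < n → ∀ Ψ : (Fin r → Fin n) → Char, (∀ x, Twister S (Ψ x)) →
      ∃ X0 : ℕ, ∀ X : ℕ, X0 ≤ X → ∃ A : Fin r → Fin m → Fin n,
        (∀ l, Function.Injective (A l)) ∧
        ((8649 / 10000) ^ (m ^ r) - r * ((m : ℝ) ^ 2 / (2 * n)) : ℝ) *
          ((Class S c s X).ncard : ℝ) ≤
        ((Class S c s X ∩ {p | ∀ ω : Fin r → Fin m,
          Positive (twist p (Ψ fun l => A l (ω l)))}).ncard : ℝ)) := by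
  classical
  obtain ⟨h1, ⟨κ, N1, hκ, h2⟩, -⟩ := Pool.Agent.W161.LF.mainA S hS c hc s hs
  have e1 : ∀ X : ℕ, Class S c s X = Pool.Agent.H306R2.RG.LnkC.RPC ∩
      (Pool.Agent.W161.LF.CL S c s ∩ {p | p.1 ≤ X}) := by
    intro X
    ext p
    simp only [Class, Pool.Agent.H306R2.RG.LnkC.RPC, Pool.Agent.W161.LF.CL, Set.mem_inter_iff,
      Set.mem_ofPred_eq]
    tauto
  have hfin : ∀ X : ℕ, (Class S c s X).Finite := fun X => by rw [e1]; exact h1 X
  -- the class as a finite set
  have hcard : ∀ X : ℕ, ((Class S c s X).ncard : ℝ) = ((hfin X).toFinset.card : ℝ) := fun X => by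
    rw [Set.ncard_eq_toFinset_card _ (hfin X)]
  have hcardf : ∀ (X : ℕ) (p : Char → Prop), ((Class S c s X ∩ {q | p q}).ncard : ℝ) =
      (((hfin X).toFinset.filter p).card : ℝ) := by
    intro X p
    rw [← Set.ncard_coe_finset]
    congr 2
    ext q
    simp
  have h3 : ∀ Q : Char, Twister S Q → ∃ X0 : ℕ, ∀ X : ℕ, X0 ≤ X →
      (8649 / 10000 : ℝ) * ((Class S c s X).ncard : ℝ) ≤
        ((Class S c s X ∩ {p | Positive (twist p Q)}).ncard : ℝ) := by
    rintro Q ⟨q1, q2, q3, q4⟩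
    obtain ⟨N, hN⟩ := Pool.Agent.TH863.LQ.main1 S hS c hc s Q q1 q2 q3 q4
    refine ⟨N, fun X hX => ?_⟩
    have e2 : Class S c s X ∩ {p | Positive (twist p Q)} = Pool.Agent.H306R2.RG.LnkC.RPC ∩
        ((Pool.Agent.W161.LF.CL S c s ∩ {p | p.1 ≤ X}) ∩
          {p | Pool.Agent.H306R2.RG.LnkC.POS (Pool.Agent.TH863.LQ.tws p Q)}) := by
      rw [e1, Set.inter_assoc]
      rfl
    rw [e2, e1]
    exact hN X hX
  refine ⟨hfin, ⟨κ, hκ, N1, fun X hX => by rw [e1]; exact h2 X hX⟩, ?_, ?_⟩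
  · intro n Ψ hΨ
    choose N hN using fun i => h3 (Ψ i) (hΨ i)
    refine ⟨∑ i, N i, fun X hX j => ?_⟩
    have hX' : ∀ i, N i ≤ X := fun i =>
      (Finset.single_le_sum (f := N) (fun _ _ => Nat.zero_le _) (Finset.mem_univ i)).trans hX
    have key := Pool.Agent.TH863.LQ.exceptions (hfin X).toFinset n (8649 / 10000)
      (fun i p => Positive (twist p (Ψ i)))
      (fun i => by
        have := hN i X (hX' i)
        rwa [hcard, hcardf] at this) j
    rw [hcard, hcardf]
    have e3 : (1 - (1 - 8649 / 10000) * (n : ℝ) / (j + 1)) = 1 - 1351 / 10000 * n / (j + 1) := by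
      norm_num
    rw [e3] at key
    refine key.trans (le_of_eq ?_)
    have e4 : ∀ p : Char, (Finset.univ.filter fun i => ¬ Positive (twist p (Ψ i))).card =
        {i | ¬ Positive (twist p (Ψ i))}.ncard := by
      intro p
      rw [← Set.ncard_coe_finset]
      simp
    simp only [e4]
    congr!
  · intro r m n hmn hn Ψ hΨ
    choose N hN using fun x => h3 (Ψ x) (hΨ x)
    refine ⟨∑ x, N x, fun X hX => ?_⟩
    have hX' : ∀ x, N x ≤ X := fun x =>
      (Finset.single_le_sum (f := N) (fun _ _ => Nat.zero_le _) (Finset.mem_univ x)).trans hX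
    obtain ⟨A, hA, key⟩ := Pool.Agent.TH863.LQ.select (hfin X).toFinset r m n hmn hn
      (8649 / 10000) (by norm_num) (fun x p => Positive (twist p (Ψ x)))
      (fun x => by
        have := hN x X (hX' x)
        rwa [hcard, hcardf] at this)
    refine ⟨A, hA, ?_⟩
    rw [hcard, hcardf]
    refine key.trans (le_of_eq ?_)
    congr!

end Pool.Agent.Results.MP_0016c7_nt.SimultaneousTwists
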