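import Mathlib
import Pool.Agent.TH178.ZF.Asm

set_option autoImplicit false

/-!
# For at least 86.4 percent of the real primitive characters there is no zero near the segment (0,1)
-/

namespace Pool.Agent.Results.MP_0016c7_nt.ZeroFreeStrip

/-- The pairs `(N, χ)`, `1 ≤ N ≤ X`, with `χ` a nontrivial primitive quadratic Dirichlet character
modulo `N`. -/
def Quadratic (X : ℕ) : Set (Σ N : ℕ, DirichletCharacter ℂ N) :=
  {p | (p.1 ≠ 0 ∧ p.2.IsPrimitive ∧ p.2 ^ 2 = 1 ∧ p.2 ≠ 1) ∧ p.1 ≤ X}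

/-- A neighbourhood of the real segment `(0,1)`: the points `s` with `0 < Re s < 1` and
`|Im s| ≤ c / L`, and the points `s` with `|s - 1/2| ≤ 49/100` and
`|Im s| ≤ (c / L) exp (c L |Re s - 1/2|)`. -/
def Nbhd (c L : ℝ) : Set ℂ :=
  {s | 0 < s.re ∧ s.re < 1 ∧ (|s.im| ≤ c / L ∨
    (‖s - 1 / 2‖ ≤ 49 / 100 ∧ |s.im| ≤ c / L * Real.exp (c * L * |s.re - 1 / 2|)))}

/-- `L(s,χ)` has no zero in the neighbourhood `Nbhd c (log X)` of the segment `(0,1)`. -/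
def ZeroFree (c : ℝ) (X : ℕ) (p : Σ N : ℕ, DirichletCharacter ℂ N) : Prop :=
  ∃ _ : NeZero p.1, ∀ s ∈ Nbhd c (Real.log X), DirichletCharacter.LFunction p.2 s ≠ 0

/-- **Theorem.** There is `c > 0` such that for all large `X`, at least 86.4 percent of the
real primitive characters `χ` of conductor at most `X` satisfy `L(s,χ) ≠ 0` at all `s` with
`0 < Re s < 1`, `|Im s| ≤ c / log X`, and at all `s` with `|s - 1/2| ≤ 49/100`,
`|Im s| ≤ (c / log X) exp (c |Re s - 1/2| log X)`. -/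
theorem result : ∃ c : ℝ, 0 < c ∧ ∃ X0 : ℕ, ∀ X : ℕ, X0 ≤ X → (Quadratic X).Finite ∧
    (864 / 1000 : ℝ) * ((Quadratic X).ncard : ℝ) ≤
      ((Quadratic X ∩ {p | ZeroFree c X p}).ncard : ℝ) := by
  obtain ⟨c, hc, N, hN⟩ := Pool.Agent.TH178.ZF.main
  refine ⟨c, hc, N, fun X hX => ?_⟩
  obtain ⟨h1, h2⟩ := hN X hX
  have hset : Quadratic X = Pool.Agent.H306R2.RG.LnkC.RPC ∩ {p | p.1 ≤ X} := rfl
  rw [hset]
  refine ⟨h1, h2.trans ?_⟩
  have hsub : (Pool.Agent.H306R2.RG.LnkC.RPC ∩ {p | p.1 ≤ X} ∩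
        {p | Pool.Agent.TH178.ZF.GoodP c X p}) ⊆
      (Pool.Agent.H306R2.RG.LnkC.RPC ∩ {p | p.1 ≤ X}) ∩ {p | ZeroFree c X p} := by
    rintro p ⟨hp1, hp2⟩
    obtain ⟨-, hNz, hp3⟩ := hp2
    refine ⟨hp1, hNz, fun s hs => ?_⟩
    obtain ⟨hs1, hs2, hs3⟩ := hs
    refine hp3 s hs1 hs2 ?_
    rcases hs3 with hs3 | ⟨hs3, hs4⟩
    · exact Or.inl hs3
    · refine Or.inr ⟨hs3, ?_⟩
      have e : c * |s.re - 1 / 2| * Real.log X = c * Real.log X * |s.re - 1 / 2| := by ring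
      rw [e]
      exact hs4
  exact_mod_cast Set.ncard_le_ncard hsub (h1.subset Set.inter_subset_left)

end Pool.Agent.Results.MP_0016c7_nt.ZeroFreeStrip
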